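import Pool.Agent.H731_SI.Final

/-!
For every `p > 2` there is a zero-free inner function `f` with `f, log f ∈ D^p_{p-1}` which is
not cyclic in `D^p_{p-1}`.
-/

set_option autoImplicit false

namespace Pool.Agent.Results.MP_dd35e7_an.NotCyclic

open MeasureTheory Complex Filter Topology Metric
open scoped ENNReal

/-- the norm of `D^p_{p-1}`: `|F(0)| + (∫_𝔻 (1 - |z|)^(p-1) |F'(z)|^p dA(z))^(1/p)`, with values in
`[0, ∞]` -/
noncomputable def dNorm (p : ℝ) (F : ℂ → ℂ) : ℝ≥0∞ :=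
  ‖F 0‖ₑ + (∫⁻ z in ball (0 : ℂ) 1,
    ENNReal.ofReal ((1 - ‖z‖) ^ (p - 1)) * ‖deriv F z‖ₑ ^ p) ^ (1 / p)

/-- `f` belongs to the space `D^p_{p-1}`: it is holomorphic on the unit disc with finite norm -/
def MemD (p : ℝ) (f : ℂ → ℂ) : Prop :=
  DifferentiableOn ℂ f (ball 0 1) ∧ dNorm p f < ∞

/-- `f` is cyclic in `D^p_{p-1}`: there are polynomials `q n` with `‖q n f - 1‖ → 0` -/
def IsCyclic (p : ℝ) (f : ℂ → ℂ) : Prop :=
  ∃ q : ℕ → Polynomial ℂ,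
    Tendsto (fun n => dNorm p (fun z => (q n).eval z * f z - 1)) atTop (𝓝 0)

/-- `f` is an inner function: holomorphic on the disc, bounded by `1`, and the integrals of
`|f|^2` over the circles of radius `r` tend to `2π` as `r → 1` (that is, `|f| = 1` almost
everywhere on the circle) -/
def IsInner (f : ℂ → ℂ) : Prop :=
  DifferentiableOn ℂ f (ball 0 1) ∧ (∀ z ∈ ball (0 : ℂ) 1, ‖f z‖ ≤ 1) ∧
    Tendsto (fun r : ℝ => ∫ θ in (-Real.pi)..Real.pi, ‖f (r * exp (θ * I))‖ ^ 2) (𝓝[<] 1)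
      (𝓝 (2 * Real.pi))

/-- For every `p > 2` there is an inner function `f = exp g` such that `f` and `g = log f` lie in
`D^p_{p-1}` and `f` is not cyclic in `D^p_{p-1}`. -/
theorem result : ∀ p : ℝ, 2 < p → ∃ f g : ℂ → ℂ, (∀ z ∈ ball (0 : ℂ) 1, exp (g z) = f z) ∧
    IsInner f ∧ MemD p f ∧ MemD p g ∧ ¬ IsCyclic p f := by
  intro p hp
  obtain ⟨g, hd, h0, hre, hg, hf, hm, hc⟩ := H731SI.main hp
  have hpos : 0 ≤ 1 / p := by
    have : 0 < p := by linarith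
    positivity
  have hfin : ∀ F : ℂ → ℂ, H731SI.Dn p F < ⊤ → dNorm p F < ∞ := by
    intro F hF
    unfold dNorm
    refine ENNReal.add_lt_top.mpr ⟨enorm_lt_top, ?_⟩
    exact ENNReal.rpow_lt_top_of_nonneg hpos hF.ne
  refine ⟨fun z => exp (g z), g, fun z _ => rfl, ⟨hd.cexp, ?_, hm⟩, ⟨hd.cexp, hfin _ hf⟩,
    ⟨hd, hfin _ hg⟩, ?_⟩
  · intro z hz
    rw [Complex.norm_exp, Real.exp_le_one_iff]
    exact hre z hz
  · rintro ⟨Q, hQ⟩
    exact hc Q hQ

end Pool.Agent.Results.MP_dd35e7_an.NotCyclic
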